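import Mathlib

set_option autoImplicit false
set_option maxHeartbeats 400000

open Filter Topology Finset Metric

namespace Pool.Agent.Results.MP_11f428_an.Shrinking

variable {𝕜 : Type} [RCLike 𝕜] {E : Type} [NormedAddCommGroup E] [NormedSpace 𝕜 E]

/-- `x` is an M-basis with functionals `f` -/
def IsMB (x : ℕ → E) (f : ℕ → StrongDual 𝕜 E) : Prop :=
  (Submodule.span 𝕜 (Set.range x)).topologicalClosure = ⊤ ∧
  (∀ i j, f i (x j) = if i = j then 1 else 0) ∧ ∀ y, (∀ n, f n y = 0) → y = 0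

/-- the closed linear span of the `f n` -/
noncomputable def V (f : ℕ → StrongDual 𝕜 E) : Submodule 𝕜 (StrongDual 𝕜 E) :=
  (Submodule.span 𝕜 (Set.range f)).topologicalClosure

/-- `f` is a boundedly complete M-basis of its closed span (functionals: evaluation at `x n`) -/
def BC (x : ℕ → E) (f : ℕ → StrongDual 𝕜 E) : Prop :=
  ∀ g : ℕ → StrongDual 𝕜 E, (∀ j, g j ∈ V f) → (∃ C : ℝ, ∀ j, ‖g j‖ ≤ C) → ∀ α : ℕ → 𝕜,
    (∀ n, Tendsto (fun j => g j (x n)) atTop (𝓝 (α n))) → ∃ h ∈ V f, ∀ n, h (x n) = α n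

theorem sep {W : Type} [NormedAddCommGroup W] [NormedSpace 𝕜 W] (L : E →L[𝕜] W) (w : W)
    (h : ∀ Λ : StrongDual 𝕜 W, ‖Λ w‖ ≤ ‖Λ ∘L L‖) : w ∈ closure (L '' closedBall 0 1) := by
  letI := NormedSpace.restrictScalars ℝ 𝕜 E
  letI := NormedSpace.restrictScalars ℝ 𝕜 W
  haveI := IsScalarTower.restrictScalars ℝ 𝕜 E
  haveI := IsScalarTower.restrictScalars ℝ 𝕜 W
  by_contra c
  obtain ⟨Λ, u, h1, h2⟩ := RCLike.geometric_hahn_banach_closed_point (𝕜 := 𝕜)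
    ((convex_closedBall 0 1).linear_image ((L : E →ₗ[𝕜] W).restrictScalars ℝ)).closure isClosed_closure c
  have h3 : ∀ g, ‖g‖ ≤ 1 → RCLike.re (Λ (L g)) < u := fun g hg =>
    h1 _ (subset_closure ⟨g, mem_closedBall_zero_iff.2 hg, rfl⟩)
  have h4 : ‖Λ ∘L L‖ ≤ u := ContinuousLinearMap.opNorm_le_of_unit_norm
    (by simpa using (h3 0 (by simp)).le) fun g hg => by
      obtain ⟨s, a, b⟩ := RCLike.exists_norm_eq_mul_self (Λ (L g))
      have := h3 (s • g) (by rw [norm_smul, a, hg, one_mul])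
      rw [map_smul, map_smul, smul_eq_mul, ← b, RCLike.ofReal_re] at this
      exact this.le
  linarith [h Λ, RCLike.re_le_norm (Λ w)]

theorem iter [CompleteSpace E] {W : Type} [NormedAddCommGroup W] [NormedSpace 𝕜 W] (u : E →L[𝕜] W)
    (hi : ∀ y, u y = 0 → y = 0) (h : ∀ y, ‖u y‖ ≤ 1 → u y ∈ closure (u '' closedBall 0 1)) (y : E) :
    ‖y‖ ≤ 2 * ‖u y‖ := by
  have : ∀ y, ∃ z, ‖z‖ ≤ ‖u y‖ ∧ ‖u (y - z)‖ ≤ ‖u y‖ / 2 := fun y => by
    by_cases c : u y = 0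
    · exact ⟨0, by simp, by simp [c]⟩
    have p : 0 < ‖u y‖ := norm_pos_iff.2 c
    have q : (‖u y‖ : 𝕜) ≠ 0 := by simpa using c
    obtain ⟨_, ⟨z, a, rfl⟩, b⟩ := Metric.mem_closure_iff.1 (h ((‖u y‖ : 𝕜)⁻¹ • y)
      (by simp [norm_smul, c])) (1 / 2) (by norm_num)
    refine ⟨(‖u y‖ : 𝕜) • z, by
      simpa [norm_smul] using mul_le_of_le_one_right p.le (mem_closedBall_zero_iff.1 a), ?_⟩
    rw [dist_eq_norm, ← map_sub] at b
    have e : y - (‖u y‖ : 𝕜) • z = (‖u y‖ : 𝕜) • ((‖u y‖ : 𝕜)⁻¹ • y - z) := by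
      rw [smul_sub, smul_inv_smul₀ q]
    rw [e, map_smul, norm_smul, RCLike.norm_ofReal, abs_norm]
    nlinarith
  choose z h1 h2 using this
  let s : ℕ → E := fun n => (fun y => y - z y)^[n] y
  have s1 : ∀ n, s (n + 1) = s n - z (s n) := fun n => Function.iterate_succ_apply' ..
  have s2 : ∀ n, ‖u (s n)‖ ≤ ‖u y‖ * (1 / 2) ^ n := fun n => by
    induction n with
    | zero => simp [s]
    | succ n ih => rw [s1, pow_succ]; linarith [h2 (s n)]
  have s3 := hasSum_geometric_two.mul_left ‖u y‖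
  have s4 := Summable.of_norm_bounded s3.summable fun n => (h1 _).trans (s2 n)
  have s5 : ∀ n, s n = y - ∑ k ∈ range n, z (s k) := fun n => by
    induction n with
    | zero => simp [s]
    | succ n ih => rw [s1, sum_range_succ, ← sub_sub, ← ih]
  have s6 := (u.continuous.tendsto _).comp (s4.hasSum.tendsto_sum_nat.const_sub y)
  have s7 := hi _ (tendsto_nhds_unique s6 (squeeze_zero_norm (fun n => by have := s2 n; rwa [s5] at this)
    s3.summable.tendsto_atTop_zero))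
  rw [sub_eq_zero.1 s7, mul_comm, ← sub_eq_zero.1 s7]
  exact (congrArg _ (sub_eq_zero.1 s7)).trans_le (tsum_of_norm_bounded s3 fun n => (h1 _).trans (s2 n))

theorem core [CompleteSpace E] {W : Type} [NormedAddCommGroup W] [NormedSpace 𝕜 W]
    (ι : W →L[𝕜] E →L[𝕜] 𝕜) (hι : ∀ w, ‖ι w‖ = ‖w‖) (x : ℕ → E)
    (hx : Dense (Submodule.span 𝕜 (Set.range x) : Set E)) (ht : ∀ y, (∀ w, ι w y = 0) → y = 0)
    (hB : ∀ g : ℕ → W, (∀ j, ‖g j‖ ≤ 1) → ∀ α : ℕ → 𝕜,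
      (∀ n, Tendsto (fun j => ι (g j) (x n)) atTop (𝓝 (α n))) → ∃ h, ∀ n, ι h (x n) = α n)
    (φ : E →L[𝕜] 𝕜) : ∃ w, ι w = φ := by
  let u : E →L[𝕜] W →L[𝕜] 𝕜 := ι.flip
  have b1 : ∀ φ : E →L[𝕜] 𝕜, (∀ y, ‖φ y‖ ≤ ‖u y‖) → ∃ w, ι w = φ := fun φ hφ => by
    have : ∀ N : ℕ, ∃ g : W, ‖g‖ ≤ 1 ∧ ∀ n < N, dist (ι g (x n)) (φ (x n)) ≤ 1 / (N + 1) := fun N => by
      obtain ⟨_, ⟨g, a, rfl⟩, b⟩ := Metric.mem_closure_iff.1 (sep
        (ContinuousLinearMap.pi fun i : Fin N => u (x i)) (fun i => φ (x i)) fun Λ => by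
          have e := fun v => LinearMap.pi_apply_eq_sum_univ (Λ : (Fin N → 𝕜) →ₗ[𝕜] 𝕜) v
          convert hφ (∑ i : Fin N, Λ (fun j => if i = j then 1 else 0) • x i) using 2
          · exact (e _).trans (by simp [mul_comm])
          · ext g; exact (e _).trans (by simp [mul_comm])) (1 / (N + 1)) (by positivity)
      exact ⟨g, mem_closedBall_zero_iff.1 a, fun n hn =>
        (dist_comm _ _).trans_le ((dist_le_pi_dist _ _ (⟨n, hn⟩ : Fin N)).trans b.le)⟩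
    choose g g1 g2 using this
    obtain ⟨h, h2⟩ := hB g g1 (fun n => φ (x n)) fun n =>
      tendsto_iff_dist_tendsto_zero.2 (squeeze_zero' (Eventually.of_forall fun _ => dist_nonneg)
        (eventually_atTop.2 ⟨n + 1, fun N hN => g2 N n hN⟩) tendsto_one_div_add_atTop_nhds_zero_nat)
    exact ⟨h, ContinuousLinearMap.ext_on hx (by rintro _ ⟨n, rfl⟩; exact h2 n)⟩
  have b2 : ∀ (φ : E →L[𝕜] 𝕜) (C : ℝ), 0 ≤ C → (∀ y, ‖φ y‖ ≤ C * ‖u y‖) → ∃ w, ι w = φ :=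
    fun φ C hC h => by
      have q : ((C + 1 : ℝ) : 𝕜) ≠ 0 := RCLike.ofReal_ne_zero.2 (by positivity)
      obtain ⟨w, hw⟩ := b1 (((C + 1 : ℝ) : 𝕜)⁻¹ • φ) fun y => by
        rw [ContinuousLinearMap.smul_apply, norm_smul, norm_inv, RCLike.norm_ofReal,
          abs_of_pos (by positivity), inv_mul_le_iff₀ (by positivity)]
        nlinarith [h y, norm_nonneg (u y)]
      exact ⟨((C + 1 : ℝ) : 𝕜) • w, by rw [map_smul, hw, smul_inv_smul₀ q]⟩
  have b3 := iter u (fun y h => ht y fun w => DFunLike.congr_fun h w) fun y hy =>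
      sep u _ fun Λ => by
        obtain ⟨w, hw⟩ := b2 (Λ ∘L u) _ (norm_nonneg Λ) fun y => Λ.le_opNorm _
        have := (u y).le_opNorm w
        rw [← hι, hw, show u y w = ι w y from rfl, hw] at this
        exact this.trans (mul_le_of_le_one_left (norm_nonneg _) hy)
  refine b2 φ (‖φ‖ * 2) (by positivity) fun y => ?_
  rw [mul_assoc]
  exact (φ.le_opNorm y).trans (mul_le_mul_of_nonneg_left (b3 y) (norm_nonneg _))

theorem result (𝕜 : Type) [RCLike 𝕜] (E : Type) [NormedAddCommGroup E] [NormedSpace 𝕜 E]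
    [CompleteSpace E] (x : ℕ → E) (f : ℕ → StrongDual 𝕜 E) (hM : IsMB x f) (hB : BC x f) :
    V f = ⊤ := by
  refine Submodule.eq_top_iff'.2 fun φ => ?_
  obtain ⟨w, rfl⟩ := core (W := V f) (V f).subtypeL (fun _ => rfl) x
    (Submodule.dense_iff_topologicalClosure_eq_top.2 hM.1) (fun y h => hM.2.2 y fun n =>
      h ⟨f n, Submodule.le_topologicalClosure _ (Submodule.subset_span ⟨n, rfl⟩)⟩)
    (fun g g1 α h => (hB (fun j => g j) (fun j => (g j).2) ⟨1, g1⟩ α h).elim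
      fun h a => ⟨⟨h, a.1⟩, a.2⟩) φ
  exact w.2

end Pool.Agent.Results.MP_11f428_an.Shrinking
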